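import Pool.Agent.helper51.QS.SpecB

/-!
# MP_74cfa5_ag, row qs:GEN: general points of a subvariety of a smooth variety
-/

set_option autoImplicit false

namespace Pool.Agent.QS

open Pool.Agent.PC MvPolynomial

universe u

/-- Nullstellensatz. -/
theorem GEN_null (k A : Type u) [Field k] [IsAlgClosed k] [CommRing A] [Algebra k A]
    [Algebra.FiniteType k A] (m : Ideal A) [hm : m.IsMaximal] (a : A) :
    ∃ c : k, a - algebraMap k A c ∈ m := by
  letI := Ideal.Quotient.field m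
  have : Algebra.FiniteType k (A ⧸ m) :=
    Algebra.FiniteType.of_surjective (Ideal.Quotient.mkₐ k m) (Ideal.Quotient.mkₐ_surjective k m)
  have : Module.Finite k (A ⧸ m) := finite_of_finite_type_of_isJacobsonRing k (A ⧸ m)
  obtain ⟨c, hc⟩ := (IsAlgClosed.algebraMap_bijective_of_isIntegral (k := k) (K := A ⧸ m)).2
    (Ideal.Quotient.mk m a)
  refine ⟨c, ?_⟩
  rw [← Ideal.Quotient.mk_eq_mk_iff_sub_mem, ← hc]
  rfl

/-- Linear algebra: a basis adapted to a subspace. -/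
theorem GEN_vs (k E : Type u) [Field k] [AddCommGroup E] [Module k E] (V W : Submodule k E)
    (hWV : W ≤ V) (n e : ℕ) (b : Module.Basis (Fin n) k V) (z : Fin e → E)
    (hz : V ≤ W ⊔ Submodule.span k (Set.range z)) :
    ∃ h ≤ n, n ≤ h + e ∧ ∃ b' : Module.Basis (Fin n) k V, ∀ i : Fin n, (i : ℕ) < h → (b' i : E) ∈ W := by
  classical
  have : Module.Finite k V := Module.Finite.of_basis b
  have hVn : Module.finrank k V = n := by
    rw [Module.finrank_eq_card_basis b, Fintype.card_fin]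
  have : Module.Finite k W := Submodule.finiteDimensional_of_le hWV
  set W₁ : Submodule k V := W.comap V.subtype with hW₁
  obtain ⟨W₂, hW₂⟩ := Submodule.exists_isCompl W₁
  set h := Module.finrank k W₁ with hh
  set h₂ := Module.finrank k W₂ with hh₂
  have hsum : h + h₂ = n := by
    rw [hh, hh₂, Submodule.finrank_add_eq_of_isCompl hW₂, hVn]
  have hWh : Module.finrank k W = h := by
    rw [hh]
    exact (LinearEquiv.finrank_eq (Submodule.comapSubtypeEquivOfLe hWV)).symm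
  refine ⟨h, by omega, ?_, ?_⟩
  · have : FiniteDimensional k ↥(Submodule.span k (Set.range z)) :=
      FiniteDimensional.span_of_finite k (Set.finite_range z)
    have h1 : Module.finrank k V ≤ Module.finrank k ↥(W ⊔ Submodule.span k (Set.range z)) :=
      Submodule.finrank_mono hz
    have h2 := Submodule.finrank_add_le_finrank_add_finrank W (Submodule.span k (Set.range z))
    have h3 : Module.finrank k ↥(Submodule.span k (Set.range z)) ≤ e := by
      have := finrank_range_le_card (R := k) z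
      rw [Fintype.card_fin] at this
      exact this
    omega
  · let b1 : Module.Basis (Fin h) k W₁ := Module.finBasisOfFinrankEq k W₁ rfl
    let b2 : Module.Basis (Fin h₂) k W₂ := Module.finBasisOfFinrankEq k W₂ rfl
    let b3 : Module.Basis (Fin h ⊕ Fin h₂) k V :=
      (b1.prod b2).map (Submodule.prodEquivOfIsCompl W₁ W₂ hW₂)
    let b4 : Module.Basis (Fin n) k V := b3.reindex (finSumFinEquiv.trans (finCongr hsum))
    refine ⟨b4, ?_⟩
    intro i hi
    have h5 : (finSumFinEquiv.trans (finCongr hsum)).symm i = Sum.inl ⟨i, hi⟩ := by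
      rw [Equiv.symm_apply_eq]
      ext
      simp
    have h6 : b4 i = ((b1 ⟨i, hi⟩ : W₁) : V) := by
      simp only [b4, Module.Basis.reindex_apply, h5, b3, Module.Basis.map_apply]
      simp
    rw [h6]
    exact (b1 ⟨i, hi⟩).2

/-- Coordinates adapted to a closed subvariety. -/
theorem GEN_coord (k A : Type u) [Field k] [CommRing A] [Algebra k A] (n e : ℕ) (m Q : Ideal A)
    (hQm : Q ≤ m) (y' : Fin n → A) (hy' : Coord k m y') (z : Fin e → A)
    (hz : ∀ b ∈ m, ∃ c : Fin e → k, b - ∑ i, c i • z i ∈ m ^ 2 ⊔ Q) :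
    ∃ h ≤ n, n ≤ h + e ∧ ∃ y : Fin n → A, Coord k m y ∧ ∀ i : Fin n, (i : ℕ) < h → y i ∈ Q := by
  classical
  obtain ⟨hy1, hy2, hy3⟩ := hy'
  set M2 : Submodule k A := (m ^ 2).restrictScalars k with hM2
  set V : Submodule k (A ⧸ M2) := (m.restrictScalars k).map M2.mkQ with hV
  set W : Submodule k (A ⧸ M2) := (Q.restrictScalars k).map M2.mkQ with hW
  have hWV : W ≤ V := Submodule.map_mono (fun x hx => hQm hx)
  have hmkQ : ∀ x : A, M2.mkQ x = 0 ↔ x ∈ m ^ 2 := by
    intro x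
    rw [Submodule.mkQ_apply, Submodule.Quotient.mk_eq_zero, hM2, Submodule.restrictScalars_mem]
  -- the basis of V
  let f : Fin n → V := fun i => ⟨M2.mkQ (y' i), Submodule.mem_map_of_mem (hy1 i)⟩
  have hf1 : LinearIndependent k f := by
    rw [Fintype.linearIndependent_iff]
    intro g hg i
    have h1 : ∑ i, g i • y' i ∈ m ^ 2 := by
      rw [← hmkQ, map_sum]
      have h2 := congrArg (Subtype.val) hg
      rw [AddSubmonoidClass.coe_finsetSum] at h2
      simpa [f] using h2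
    rw [hy2 g h1]
    rfl
  have hf2 : ⊤ ≤ Submodule.span k (Set.range f) := by
    rintro ⟨v, hv⟩ -
    obtain ⟨b, hb, rfl⟩ := hv
    obtain ⟨c, hc⟩ := hy3 b hb
    rw [← hmkQ, map_sub, sub_eq_zero, map_sum] at hc
    have h3 : (⟨M2.mkQ b, Submodule.mem_map_of_mem hb⟩ : V) = ∑ i, c i • f i := by
      apply Subtype.ext
      rw [AddSubmonoidClass.coe_finsetSum]
      refine hc.trans ?_
      simp [f]
    rw [h3]
    exact Submodule.sum_mem _ fun i _ => Submodule.smul_mem _ _ (Submodule.subset_span ⟨i, rfl⟩)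
  let b : Module.Basis (Fin n) k V := Module.Basis.mk hf1 hf2
  have hzV : V ≤ W ⊔ Submodule.span k (Set.range fun i => M2.mkQ (z i)) := by
    rintro v ⟨x, hx, rfl⟩
    obtain ⟨c, hc⟩ := hz x hx
    obtain ⟨p, hp, q, hq, hpq⟩ := Submodule.mem_sup.mp hc
    have h4 : M2.mkQ x = M2.mkQ q + ∑ i, c i • M2.mkQ (z i) := by
      have h5 : x = p + q + ∑ i, c i • z i := by rw [hpq]; ring
      rw [h5, map_add, map_add, (hmkQ p).mpr hp, zero_add, map_sum]
      simp
    rw [h4]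
    apply Submodule.add_mem_sup
    · exact Submodule.mem_map_of_mem hq
    · exact Submodule.sum_mem _ fun i _ => Submodule.smul_mem _ _ (Submodule.subset_span ⟨i, rfl⟩)
  obtain ⟨h, hhn, hnh, b', hb'⟩ := GEN_vs k (A ⧸ M2) V W hWV n e b _ hzV
  refine ⟨h, hhn, hnh, ?_⟩
  have hex : ∀ i : Fin n, ∃ x : A, x ∈ m ∧ M2.mkQ x = (b' i : A ⧸ M2) ∧ ((i : ℕ) < h → x ∈ Q) := by
    intro i
    by_cases hi : (i : ℕ) < h
    · obtain ⟨x, hx, hxe⟩ := hb' i hi
      exact ⟨x, hQm hx, hxe, fun _ => hx⟩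
    · obtain ⟨x, hx, hxe⟩ := (b' i).2
      exact ⟨x, hx, hxe, fun h => absurd h hi⟩
  choose y hym hye hyQ using hex
  refine ⟨y, ⟨hym, ?_, ?_⟩, hyQ⟩
  · intro c hc
    rw [← hmkQ, map_sum] at hc
    have h6 : ∑ i, c i • b' i = 0 := by
      apply Subtype.ext
      rw [AddSubmonoidClass.coe_finsetSum]
      simpa [hye] using hc
    funext i
    exact Fintype.linearIndependent_iff.mp b'.linearIndependent c h6 i
  · intro x hx
    have hxV : M2.mkQ x ∈ V := Submodule.mem_map_of_mem hx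
    refine ⟨fun i => b'.repr ⟨_, hxV⟩ i, ?_⟩
    rw [← hmkQ, map_sub, sub_eq_zero, map_sum]
    have h7 := congrArg Subtype.val (b'.sum_repr ⟨_, hxV⟩)
    rw [AddSubmonoidClass.coe_finsetSum] at h7
    simp only [map_smul, hye]
    exact h7.symm

/-- A transcendence basis inside a domain of finite type. -/
theorem GEN_trb (k B L : Type u) [Field k] [CommRing B] [IsDomain B] [Algebra k B]
    [Algebra.FiniteType k B] [Field L] [Algebra k L] [Algebra B L] [IsScalarTower k B L]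
    [IsFractionRing B L] :
    ∃ (e : ℕ) (s : Fin e → B), AlgebraicIndependent k s ∧
      IsTranscendenceBasis k (fun i => algebraMap B L (s i)) := by
  have : FaithfulSMul k B :=
    (faithfulSMul_iff_algebraMap_injective k B).mpr (algebraMap k B).injective
  obtain ⟨ι, x, hx⟩ := exists_isTranscendenceBasis' k B
  have hfin : Finite ι := by
    have h1 := trdeg_lt_aleph0_of_finiteType (R := k) (S := B)
    rw [← hx.cardinalMk_eq_trdeg] at h1
    exact Cardinal.mk_lt_aleph0_iff.mp h1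
  have := Fintype.ofFinite ι
  let eq := (Fintype.equivFin ι).symm
  have hx' : IsTranscendenceBasis k (x ∘ eq) := hx.comp_equiv eq
  have : FaithfulSMul B L :=
    (faithfulSMul_iff_algebraMap_injective B L).mpr (IsFractionRing.injective B L)
  have : Algebra.IsAlgebraic B L := IsLocalization.isAlgebraic L (nonZeroDivisors B)
  exact ⟨_, x ∘ eq, hx'.1, hx'.algebraMap_comp⟩

/-- Row qs:GEN. -/
theorem GEN (hKDI : KDI_stmt.{u}) (hCRE : CRE_stmt.{u}) (hQRR : QRR_stmt.{u})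
    (hTAY : TAY_stmt.{u}) (hPYY : PYY_stmt.{u}) (hGE1 : GE1_stmt.{u}) (hGE2 : GE2_stmt.{u})
    (hGE4 : GE4_stmt.{u}) : GEN_stmt.{u} := by
  intro k A K _ _ _ _ _ _ _ _ _ _ _ n hn Q hQ
  have : Algebra.FiniteType k A := inferInstance
  have : IsNoetherianRing A := Algebra.FiniteType.isNoetherianRing k A
  -- the quotient B
  have : Algebra.FiniteType k (A ⧸ Q) :=
    Algebra.FiniteType.of_surjective (Ideal.Quotient.mkₐ k Q) (Ideal.Quotient.mkₐ_surjective k Q)
  obtain ⟨e, s, hs1, hs2⟩ := GEN_trb k (A ⧸ Q) (FractionRing (A ⧸ Q))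
  obtain ⟨mB, z, hmB, hz1, hz2⟩ := hGE1 k (A ⧸ Q) (FractionRing (A ⧸ Q)) e _ hs2
  set m : Ideal A := mB.comap (Ideal.Quotient.mk Q) with hm
  have hmax : m.IsMaximal :=
    Ideal.comap_isMaximal_of_surjective (Ideal.Quotient.mk Q) Ideal.Quotient.mk_surjective
  have hQm : Q ≤ m := by
    intro x hx
    rw [hm, Ideal.mem_comap, Ideal.Quotient.eq_zero_iff_mem.mpr hx]
    exact mB.zero_mem
  obtain ⟨y', hy'⟩ := hCRE k A K n hn m hmax
  choose zA hzA using fun i => Ideal.Quotient.mk_surjective (z i)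
  have hz : ∀ b ∈ m, ∃ c : Fin e → k, b - ∑ i, c i • zA i ∈ m ^ 2 ⊔ Q := by
    intro b hb
    obtain ⟨c, hc⟩ := hz2 (Ideal.Quotient.mk Q b) hb
    refine ⟨c, ?_⟩
    have h1 : Ideal.Quotient.mk Q (b - ∑ i, c i • zA i) ∈ (m ^ 2).map (Ideal.Quotient.mk Q) := by
      have h2 : (m ^ 2).map (Ideal.Quotient.mk Q) = mB ^ 2 := by
        rw [Ideal.map_pow, hm, Ideal.map_comap_of_surjective _ Ideal.Quotient.mk_surjective]
      rw [h2]
      have h3 : Ideal.Quotient.mk Q (b - ∑ i, c i • zA i) =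
          Ideal.Quotient.mk Q b - ∑ i, c i • z i := by
        rw [map_sub, map_sum]
        congr 1
        apply Finset.sum_congr rfl
        intro i _
        rw [← hzA i]
        rfl
      rw [h3]
      exact hc
    have h4 := Ideal.mem_comap.mpr h1
    rw [Ideal.comap_map_of_surjective _ Ideal.Quotient.mk_surjective] at h4
    have h5 : Ideal.comap (Ideal.Quotient.mk Q) ⊥ = Q := by
      rw [← RingHom.ker_eq_comap_bot, Ideal.mk_ker]
    rwa [h5] at h4
  obtain ⟨h, hhn, hnh, y, hy, hyQ⟩ := GEN_coord k A n e m Q hQm y' hy' zA hz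
  refine ⟨m, h, y, hmax, hQm, hhn, hy, hyQ, ?_⟩
  -- the Taylor expansion
  have hnull : ∀ a : A, ∃ c : k, a - algebraMap k A c ∈ m := GEN_null k A m
  obtain ⟨φ, hφ⟩ := hTAY k A n m hnull y hy
    (hQRR k A n m hmax.ne_top hnull y hy)
  obtain ⟨𝔮, h𝔮, h𝔮m, h𝔮1, h𝔮2⟩ := hPYY k A n m y φ hφ h
  have h𝔮Q : 𝔮 ≤ Q := by
    intro a ha
    obtain ⟨t, ht, hta⟩ := (h𝔮1 a).mp ha
    have hspan : Ideal.span {b | ∃ i : Fin n, (i : ℕ) < h ∧ b = y i} ≤ Q := by
      rw [Ideal.span_le]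
      rintro b ⟨i, hi, rfl⟩
      exact hyQ i hi
    exact (hQ.mem_or_mem (hspan hta)).resolve_left fun h => ht (hQm h)
  suffices hQ𝔮 : Q ≤ 𝔮 by
    intro b hb
    exact (h𝔮1 b).mp (hQ𝔮 hb)
  -- the quotient B'
  have : Algebra.FiniteType k (A ⧸ 𝔮) :=
    Algebra.FiniteType.of_surjective (Ideal.Quotient.mkₐ k 𝔮) (Ideal.Quotient.mkₐ_surjective k 𝔮)
  obtain ⟨e', s', hs1', hs2'⟩ := GEN_trb k (A ⧸ 𝔮) (FractionRing (A ⧸ 𝔮))
  have he'1 : Module.finrank (FractionRing (A ⧸ 𝔮)) (Ω[FractionRing (A ⧸ 𝔮)⁄k]) = e' :=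
    (hKDI k (FractionRing (A ⧸ 𝔮)) e' _ hs2').2
  have he'2 : Module.finrank (FractionRing (A ⧸ 𝔮)) (Ω[FractionRing (A ⧸ 𝔮)⁄k]) ≤ n - h := by
    have hker : RingHom.ker (algebraMap A (FractionRing (A ⧸ 𝔮))) = 𝔮 := by
      ext a
      rw [RingHom.mem_ker, IsScalarTower.algebraMap_apply A (A ⧸ 𝔮) (FractionRing (A ⧸ 𝔮)),
        (injective_iff_map_eq_zero' _).mp (IsFractionRing.injective (A ⧸ 𝔮) (FractionRing (A ⧸ 𝔮)))]
      exact Ideal.Quotient.eq_zero_iff_mem
    apply hGE4 k A (FractionRing (A ⧸ 𝔮)) ?_ m hmax (hker.trans_le h𝔮m) hnull n h y hy hhn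
    · intro i hi
      have h1 : y i ∈ 𝔮 := by
        rw [h𝔮1]
        refine ⟨1, fun h1 => hmax.ne_top ((Ideal.eq_top_iff_one m).mpr h1), ?_⟩
        rw [one_mul]
        exact Ideal.subset_span ⟨i, hi, rfl⟩
      rw [← RingHom.mem_ker, hker]
      exact h1
    · intro l
      obtain ⟨x, y, hy, rfl⟩ := IsFractionRing.div_surjective (A := A ⧸ 𝔮) l
      obtain ⟨a, rfl⟩ := Ideal.Quotient.mk_surjective x
      obtain ⟨b, rfl⟩ := Ideal.Quotient.mk_surjective y
      refine ⟨a, b, ?_, rfl⟩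
      intro h0
      have h1 : b ∈ 𝔮 := by
        rw [← hker]
        exact h0
      exact (mem_nonZeroDivisors_iff_ne_zero.mp hy) (Ideal.Quotient.eq_zero_iff_mem.mpr h1)
  have hee : e' ≤ e := by omega
  by_contra hcon
  refine hGE2 k (A ⧸ 𝔮) (FractionRing (A ⧸ 𝔮)) e' _ hs2' (Q.map (Ideal.Quotient.mkₐ k 𝔮)) ?_ ?_
    ⟨fun i => (DoubleQuot.quotQuotEquivQuotOfLEₐ k h𝔮Q).symm (s (Fin.castLE hee i)), ?_⟩
  · apply Ideal.map_isPrime_of_surjective (Ideal.Quotient.mkₐ_surjective k 𝔮)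
    intro x hx
    exact h𝔮Q (Ideal.Quotient.eq_zero_iff_mem.mp (RingHom.mem_ker.mp hx))
  · intro h0
    apply hcon
    intro x hx
    have h1 := Ideal.mem_map_of_mem (Ideal.Quotient.mkₐ k 𝔮) hx
    rw [h0, Ideal.mem_bot] at h1
    exact Ideal.Quotient.eq_zero_iff_mem.mp h1
  · have h1 := hs1.comp (Fin.castLE hee) (Fin.castLE_injective hee)
    exact h1.map' (f := (DoubleQuot.quotQuotEquivQuotOfLEₐ k h𝔮Q).symm.toAlgHom)
      (DoubleQuot.quotQuotEquivQuotOfLEₐ k h𝔮Q).symm.injective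

end Pool.Agent.QS
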